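import Pool.Agent.H20.TD.Cone
import Pool.Agent.H24.VP.Nef

/-!
# THEOREM D (MP_e49dc9_ag): the ample cone in `ℝ ^ r`

`NumR ν`: `ν` maps the divisors onto `ℤ ^ r`, with kernel the numerically trivial ones.  `ci ν D`: the class of `D`.
`AmpR ν`: the convex cone generated by the ample classes.  `CC ν`: the open convex cone of the `x` such that all `D` with
`ci D / N` near `x` are ample.
-/

set_option autoImplicit false

namespace Pool.Agent.H20.TD

open Pool.Agent.H54.RV Pool.Agent.H83.TU Pool.Agent.H83.TK Pool.Agent.H24.VP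

variable {k K : Type} [Field k] [Field K] [Algebra k K] {X : Mod k K} {r : ℕ}

/-- the classes of the divisors modulo the numerically trivial ones form the group `ℤ ^ r`, by the map `ν` -/
structure NumR (ν : Cart X →* Multiplicative (Fin r → ℤ)) : Prop where
  surj : Function.Surjective ν
  ker : ∀ D, ν D = 1 ↔ NumZ D

variable (ν : Cart X →* Multiplicative (Fin r → ℤ))

/-- the class of a divisor -/
noncomputable def ci (D : Cart X) : Fin r → ℤ := Multiplicative.toAdd (ν D)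

/-- the ample cone -/
def AmpR : Set (Fin r → ℝ) :=
  {v | ∃ (m : ℕ) (c : Fin (m + 1) → ℝ) (D : Fin (m + 1) → Cart X),
    (∀ i, 0 < c i) ∧ (∀ i, Ample (D i)) ∧ v = ∑ i, c i • rv (ci ν (D i))}

/-- the `x` such that all divisors with classes near the ray of `x` are ample -/
def CC : Set (Fin r → ℝ) :=
  {x | ∃ δ : ℝ, 0 < δ ∧ ∀ (N : ℕ) (D : Cart X), 0 < N → ‖rv (ci ν D) - (N : ℝ) • x‖ ≤ N * δ → Ample D}

variable {ν}

theorem ci_mul (D E : Cart X) : ci ν (D * E) = ci ν D + ci ν E := by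
  unfold ci
  rw [map_mul]
  rfl

theorem ci_one : ci ν 1 = 0 := by
  unfold ci
  rw [map_one]
  rfl

theorem ci_inv (D : Cart X) : ci ν D⁻¹ = - ci ν D := by
  unfold ci
  rw [map_inv]
  rfl

theorem ci_pow (D : Cart X) (n : ℕ) : ci ν (D ^ n) = (n : ℤ) • ci ν D := by
  unfold ci
  rw [map_pow, toAdd_pow, natCast_zsmul]

theorem ci_zpow (D : Cart X) (n : ℤ) : ci ν (D ^ n) = n • ci ν D := by
  unfold ci
  rw [map_zpow, toAdd_zpow]

theorem ci_surj (hν : NumR ν) (d : Fin r → ℤ) : ∃ D : Cart X, ci ν D = d := by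
  obtain ⟨D, hD⟩ := hν.surj (Multiplicative.ofAdd d)
  refine ⟨D, ?_⟩
  unfold ci
  rw [hD]
  rfl

theorem ci_numz (hν : NumR ν) {D E : Cart X} (h : ci ν D = ci ν E) : NumZ (D⁻¹ * E) := by
  rw [← hν.ker]
  have h1 : ν D = ν E := Multiplicative.toAdd.injective h
  rw [map_mul, map_inv, h1, inv_mul_cancel]

theorem amp_congr (hν : NumR ν) {D E : Cart X} (h : ci ν D = ci ν E) (hD : Ample D) : Ample E := by
  have h1 := (ci_numz hν h D hD).1
  rwa [mul_inv_cancel_left] at h1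

/-- additive functions which are nonnegative on the ample divisors vanish on the numerically trivial ones -/
theorem nz_zero {f : Cart X → ℝ} (hf : ∀ U V, f (U * V) = f U + f V) (hp : ∀ A, Ample A → 0 ≤ f A)
    (hA : ∃ A : Cart X, Ample A) {D : Cart X} (hD : NumZ D) : f D = 0 := by
  obtain ⟨A, hA⟩ := hA
  have h1 : f 1 = 0 := by
    have h2 := hf 1 1
    rw [mul_one] at h2
    linarith
  have h2 : ∀ n : ℕ, Ample (A * D ^ n) ∧ Ample (A * D⁻¹ ^ n) := by
    intro n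
    induction n with
    | zero => simp only [pow_zero, mul_one]; exact ⟨hA, hA⟩
    | succ n ih =>
      rw [pow_succ, pow_succ, ← mul_assoc, ← mul_assoc]
      exact ⟨(hD _ ih.1).1, (hD _ ih.2).2⟩
  have h3 : ∀ (U : Cart X) (n : ℕ), f (U ^ n) = n * f U := by
    intro U n
    induction n with
    | zero => rw [pow_zero, h1, Nat.cast_zero, zero_mul]
    | succ n ih =>
      rw [pow_succ, hf, ih]
      push_cast
      ring
  have h4 : f D⁻¹ = - f D := by
    have h5 := hf D D⁻¹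
    rw [mul_inv_cancel, h1] at h5
    linarith
  by_contra h5
  obtain ⟨n, hn⟩ := exists_nat_gt (f A / |f D|)
  rw [div_lt_iff₀ (abs_pos.2 h5)] at hn
  have h6 := hp _ (h2 n).1
  have h7 := hp _ (h2 n).2
  rw [hf, h3] at h6 h7
  rw [h4] at h7
  rcases abs_cases (f D) with ⟨h8, -⟩ | ⟨h8, -⟩ <;> rw [h8] at hn <;> linarith

/-- additive functions extend to linear maps -/
theorem exists_ext (hν : NumR ν) {F : Type*} [AddCommGroup F] [Module ℝ F] {f : Cart X → F}
    (hf : ∀ U V, f (U * V) = f U + f V) (hz : ∀ D, NumZ D → f D = 0) :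
    ∃ L : (Fin r → ℝ) →ₗ[ℝ] F, ∀ D, L (rv (ci ν D)) = f D := by
  classical
  have h1 : f 1 = 0 := by
    have h2 := hf 1 1
    rw [mul_one] at h2
    exact left_eq_add.1 h2
  choose E hE using fun i : Fin r => ci_surj hν (Pi.single i 1)
  let G : Cart X →* Multiplicative F :=
    { toFun := fun U => Multiplicative.ofAdd (f U)
      map_one' := by rw [h1]; rfl
      map_mul' := fun U V => by rw [hf]; rfl }
  refine ⟨∑ i, (LinearMap.proj i : (Fin r → ℝ) →ₗ[ℝ] ℝ).smulRight (f (E i)), fun D => ?_⟩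
  have h2 : ci ν (∏ i, E i ^ (ci ν D i)) = ci ν D := by
    have h3 : ci ν (∏ i, E i ^ (ci ν D i)) = ∑ i, ci ν (E i ^ (ci ν D i)) := by
      unfold ci
      rw [map_prod, toAdd_prod]
    rw [h3]
    funext j
    simp only [ci_zpow, hE, Finset.sum_apply, Pi.smul_apply, Pi.single_apply, smul_eq_mul]
    simp
  have h3 := hz _ (ci_numz hν h2)
  rw [hf] at h3
  have h4 : f (∏ i, E i ^ (ci ν D i))⁻¹ = - f (∏ i, E i ^ (ci ν D i)) := by
    have h5 := hf (∏ i, E i ^ (ci ν D i)) (∏ i, E i ^ (ci ν D i))⁻¹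
    rw [mul_inv_cancel, h1] at h5
    exact (neg_eq_of_add_eq_zero_right h5.symm).symm
  have h5 : f (∏ i, E i ^ (ci ν D i)) = ∑ i, (ci ν D i : ℝ) • f (E i) := by
    have h6 : Multiplicative.toAdd (G (∏ i, E i ^ (ci ν D i))) = ∑ i, (ci ν D i : ℝ) • f (E i) := by
      rw [map_prod, toAdd_prod]
      refine Finset.sum_congr rfl fun i _ => ?_
      rw [map_zpow, toAdd_zpow, Int.cast_smul_eq_zsmul]
      rfl
    exact h6
  rw [h4, neg_add_eq_zero] at h3
  rw [← h3, h5, LinearMap.sum_apply]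
  rfl

/-- linear maps which agree on the classes are equal -/
theorem ext_uniq (hν : NumR ν) {F : Type*} [AddCommGroup F] [Module ℝ F] {L L' : (Fin r → ℝ) →ₗ[ℝ] F}
    (h : ∀ D, L (rv (ci ν D)) = L' (rv (ci ν D))) : L = L' := by
  refine LinearMap.pi_ext' fun i => LinearMap.ext_ring ?_
  obtain ⟨D, hD⟩ := ci_surj hν (Pi.single i 1)
  have h1 := h D
  rw [hD, rv_single] at h1
  exact h1

/-- rational approximations -/
theorem exists_near (x : Fin r → ℝ) {δ : ℝ} (hδ : 0 < δ) :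
    ∃ (N : ℕ) (d : Fin r → ℤ), 0 < N ∧ 1 ≤ N * δ ∧ ‖rv d - (N : ℝ) • x‖ ≤ 1 := by
  obtain ⟨N, hN⟩ := exists_nat_gt (1 / δ)
  rw [div_lt_iff₀ hδ] at hN
  have hN0 : 0 < N := by
    rcases Nat.eq_zero_or_pos N with h | h
    · rw [h, Nat.cast_zero, zero_mul] at hN
      linarith
    · exact h
  refine ⟨N, fun i => ⌊(N : ℝ) * x i⌋, hN0, hN.le, ?_⟩
  rw [pi_norm_le_iff_of_nonneg zero_le_one]
  intro i
  rw [Pi.sub_apply, Pi.smul_apply, smul_eq_mul, Real.norm_eq_abs, abs_le]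
  have h1 := Int.floor_le ((N : ℝ) * x i)
  have h2 := Int.lt_floor_add_one ((N : ℝ) * x i)
  show -1 ≤ ((⌊(N : ℝ) * x i⌋ : ℤ) : ℝ) - N * x i ∧ ((⌊(N : ℝ) * x i⌋ : ℤ) : ℝ) - N * x i ≤ 1
  constructor <;> linarith

theorem cc_open : IsOpen (CC ν) := by
  rw [Metric.isOpen_iff]
  rintro x ⟨δ, hδ, h⟩
  refine ⟨δ / 2, by positivity, fun y hy => ⟨δ / 2, by positivity, fun N D hN h1 => h N D hN ?_⟩⟩
  have h2 : rv (ci ν D) - (N : ℝ) • x = (rv (ci ν D) - (N : ℝ) • y) + (N : ℝ) • (y - x) := by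
    rw [smul_sub]
    abel
  rw [h2]
  refine (norm_add_le _ _).trans ?_
  rw [norm_smul, Real.norm_eq_abs, abs_of_nonneg (Nat.cast_nonneg N)]
  rw [Metric.mem_ball, dist_eq_norm] at hy
  have h3 := mul_le_mul_of_nonneg_left hy.le (Nat.cast_nonneg (α := ℝ) N)
  linarith

theorem cc_add (hX : IsVar X) (hν : NumR ν) {x y : Fin r → ℝ} (hx : x ∈ CC ν) (hy : y ∈ CC ν) : x + y ∈ CC ν := by
  obtain ⟨δ₁, hδ₁, h1⟩ := hx
  obtain ⟨δ₂, hδ₂, h2⟩ := hy
  obtain ⟨δ, hδ⟩ : ∃ δ, δ = min δ₁ δ₂ / 2 := ⟨_, rfl⟩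
  have hm : 0 < min δ₁ δ₂ := lt_min hδ₁ hδ₂
  have hδ0 : 0 < δ := by rw [hδ]; positivity
  have hd1 : δ ≤ δ₁ := by
    have := min_le_left δ₁ δ₂
    rw [hδ]
    linarith
  have hd2 : 2 * δ ≤ δ₂ := by
    have := min_le_right δ₁ δ₂
    rw [hδ]
    linarith
  obtain ⟨N', d1, hN', h3, h4⟩ := exists_near x hδ0
  have hN'0 : (0 : ℝ) ≤ N' := Nat.cast_nonneg _
  refine ⟨δ, hδ0, fun N D hN h5 => ?_⟩
  have hN0 : (0 : ℝ) ≤ N := Nat.cast_nonneg _
  obtain ⟨D1, hD1⟩ := ci_surj hν ((N : ℤ) • d1)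
  have k1 : Ample D1 := by
    refine h1 (N * N') D1 (Nat.mul_pos hN hN') ?_
    rw [hD1, rv_smul]
    have e : (((N : ℤ) : ℝ)) • rv d1 - ((N * N' : ℕ) : ℝ) • x = (N : ℝ) • (rv d1 - (N' : ℝ) • x) := by
      rw [smul_sub, smul_smul]
      push_cast
      rfl
    rw [e, norm_smul, Real.norm_eq_abs, abs_of_nonneg hN0]
    push_cast
    have h6 := mul_le_mul_of_nonneg_left (h4.trans h3) hN0
    have h7 : (N : ℝ) * (N' * δ) ≤ N * (N' * δ₁) := by gcongr
    linarith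
  have k2 : Ample (D ^ N' * D1⁻¹) := by
    refine h2 (N * N') _ (Nat.mul_pos hN hN') ?_
    rw [ci_mul, ci_pow, ci_inv, hD1, rv_add, rv_smul, rv_neg, rv_smul]
    have e : ((N' : ℤ) : ℝ) • rv (ci ν D) + -(((N : ℤ) : ℝ) • rv d1) - ((N * N' : ℕ) : ℝ) • y =
        (N' : ℝ) • (rv (ci ν D) - (N : ℝ) • (x + y)) - (N : ℝ) • (rv d1 - (N' : ℝ) • x) := by
      push_cast
      module
    rw [e]
    refine (norm_sub_le _ _).trans ?_
    rw [norm_smul, norm_smul, Real.norm_eq_abs, Real.norm_eq_abs, abs_of_nonneg hN0, abs_of_nonneg hN'0]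
    push_cast
    have h6 := mul_le_mul_of_nonneg_left (h4.trans h3) hN0
    have h7 := mul_le_mul_of_nonneg_left h5 hN'0
    have h8 : (N : ℝ) * N' * (2 * δ) ≤ N * N' * δ₂ := by gcongr
    linarith
  have k3 := ample_mul hX _ _ k1 k2
  rw [mul_comm, inv_mul_cancel_right] at k3
  exact ample_of_pow _ N' hN' k3

theorem cc_smul {c : ℝ} (hc : 0 < c) {x : Fin r → ℝ} (hx : x ∈ CC ν) : c • x ∈ CC ν := by
  obtain ⟨δ, hδ, h1⟩ := hx
  obtain ⟨w, hw⟩ := exists_nat_gt (4 * ‖x‖ / (c * δ))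
  rw [div_lt_iff₀ (by positivity)] at hw
  have hw0 : 0 < w := by
    rcases Nat.eq_zero_or_pos w with h | h
    · rw [h, Nat.cast_zero, zero_mul] at hw
      have := norm_nonneg x
      linarith
    · exact h
  have hw1 : (0 : ℝ) < w := by exact_mod_cast hw0
  obtain ⟨u, hu⟩ : ∃ u, u = ⌈(w : ℝ) * c⌉₊ := ⟨_, rfl⟩
  have hu1 : (w : ℝ) * c ≤ u := by rw [hu]; exact Nat.le_ceil _
  have hu2 : (u : ℝ) < w * c + 1 := by rw [hu]; exact Nat.ceil_lt_add_one (by positivity)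
  have hu0 : 0 < u := by
    have : (0 : ℝ) < u := lt_of_lt_of_le (by positivity) hu1
    exact_mod_cast this
  refine ⟨c * δ / 4, by positivity, fun N D hN h2 => ?_⟩
  have hN0 : (0 : ℝ) < N := by exact_mod_cast hN
  refine ample_of_pow D w hw0 (h1 (N * u) _ (Nat.mul_pos hN hu0) ?_)
  rw [ci_pow, rv_smul]
  have e : ((w : ℤ) : ℝ) • rv (ci ν D) - ((N * u : ℕ) : ℝ) • x =
      (w : ℝ) • (rv (ci ν D) - (N : ℝ) • c • x) + (N * (w * c - u) : ℝ) • x := by
    push_cast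
    module
  rw [e]
  refine (norm_add_le _ _).trans ?_
  rw [norm_smul, norm_smul, Real.norm_eq_abs, Real.norm_eq_abs, abs_of_pos hw1, abs_mul, abs_of_pos hN0,
    abs_of_nonpos (show (w : ℝ) * c - u ≤ 0 by linarith)]
  have h3 := mul_le_mul_of_nonneg_left h2 hw1.le
  have h4 : (N : ℝ) * -(w * c - u) * ‖x‖ ≤ N * ‖x‖ := by
    have h5 : (N : ℝ) * -(w * c - u) ≤ N * 1 := mul_le_mul_of_nonneg_left (by linarith) hN0.le
    have h6 := mul_le_mul_of_nonneg_right h5 (norm_nonneg x)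
    rwa [mul_one] at h6
  have h5 : (N : ℝ) * (4 * ‖x‖) ≤ N * (w * (c * δ)) := mul_le_mul_of_nonneg_left hw.le hN0.le
  have h6 : (N : ℝ) * (w * c) * δ ≤ N * u * δ := by gcongr
  push_cast
  nlinarith

theorem cc_amp (hX : IsVar X) (hν : NumR ν) {D₀ : Cart X} (hD₀ : Ample D₀) : rv (ci ν D₀) ∈ CC ν := by
  classical
  choose E hE using fun i : Fin r => ci_surj hν (Pi.single i 1)
  obtain ⟨n, hn0, hn⟩ : ∃ n : ℕ, 0 < n ∧ ∀ i, Ample (D₀ ^ n * E i) ∧ Ample (D₀ ^ n * (E i)⁻¹) := by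
    choose n1 h1 using fun i => exists_amp hX hD₀ (E i)
    choose n2 h2 using fun i => exists_amp hX hD₀ (E i)⁻¹
    refine ⟨∑ i, (n1 i + n2 i) + 1, Nat.succ_pos _, fun i => ?_⟩
    have h3 : n1 i + n2 i ≤ ∑ i, (n1 i + n2 i) :=
      Finset.single_le_sum (f := fun i => n1 i + n2 i) (fun _ _ => Nat.zero_le _) (Finset.mem_univ i)
    exact ⟨h1 i _ (by omega), h2 i _ (by omega)⟩
  have key : ∀ (y : Fin r → ℤ) (S : Finset (Fin r)) (M : ℕ), n * ∑ j ∈ S, (y j).natAbs < M →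
      Ample (D₀ ^ M * ∏ j ∈ S, E j ^ (y j)) := by
    intro y S
    induction S using Finset.induction_on with
    | empty =>
      intro M hM
      rw [Finset.prod_empty, mul_one]
      exact ample_pow _ M (by omega) hD₀
    | insert a S ha ih =>
      intro M hM
      rw [Finset.sum_insert ha, mul_add] at hM
      rw [Finset.prod_insert ha]
      have h1 := ih (M - n * (y a).natAbs) (by omega)
      have h2 : D₀ ^ M = D₀ ^ (M - n * (y a).natAbs) * D₀ ^ (n * (y a).natAbs) := by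
        rw [← pow_add]
        congr 1
        omega
      rcases Nat.eq_zero_or_pos (y a).natAbs with h3 | h3
      · have h4 : y a = 0 := Int.natAbs_eq_zero.1 h3
        rw [h3, mul_zero, Nat.sub_zero] at h1
        rw [h4, zpow_zero, one_mul]
        exact h1
      · rcases Int.natAbs_eq (y a) with h4 | h4
        · have h5 : E a ^ (y a) = E a ^ (y a).natAbs := by
            conv_lhs => rw [h4]
            rw [zpow_natCast]
          have h6 := ample_mul hX _ _ h1 (ample_pow _ _ h3 (hn a).1)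
          rw [mul_pow, ← pow_mul] at h6
          rwa [h5, h2, mul_comm (_ ^ (y a).natAbs), mul_mul_mul_comm]
        · have h5 : E a ^ (y a) = (E a)⁻¹ ^ (y a).natAbs := by
            conv_lhs => rw [h4]
            rw [zpow_neg, zpow_natCast, inv_pow]
          have h6 := ample_mul hX _ _ h1 (ample_pow _ _ h3 (hn a).2)
          rw [mul_pow, ← pow_mul] at h6
          rwa [h5, h2, mul_comm (_ ^ (y a).natAbs), mul_mul_mul_comm]
  refine ⟨1 / (2 * n * (r + 1)), by positivity, fun N D hN h1 => ?_⟩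
  have hn1 : (0 : ℝ) < n := by exact_mod_cast hn0
  obtain ⟨y, hy⟩ : ∃ y, y = ci ν D - (N : ℤ) • ci ν D₀ := ⟨_, rfl⟩
  have h2 := key y Finset.univ N (by
    have h3 : ∀ j, ((y j).natAbs : ℝ) ≤ N * (1 / (2 * n * (r + 1))) := by
      intro j
      refine le_trans ?_ h1
      have h4 := norm_le_pi_norm (rv (ci ν D) - (N : ℝ) • rv (ci ν D₀)) j
      refine le_trans (le_of_eq ?_) h4
      rw [Real.norm_eq_abs, Nat.cast_natAbs, hy]
      simp only [rv, Pi.sub_apply, Pi.smul_apply, smul_eq_mul]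
      push_cast
      rfl
    have h4 : ((n * ∑ j, (y j).natAbs : ℕ) : ℝ) < N := by
      push_cast
      have h5 : ∑ j : Fin r, ((y j).natAbs : ℝ) ≤ ∑ _j : Fin r, (N : ℝ) * (1 / (2 * n * (r + 1))) :=
        Finset.sum_le_sum fun j _ => h3 j
      rw [Finset.sum_const, Finset.card_univ, Fintype.card_fin, nsmul_eq_mul] at h5
      have h6 := mul_le_mul_of_nonneg_left h5 hn1.le
      refine lt_of_le_of_lt h6 ?_
      have hN0 : (0 : ℝ) < N := by exact_mod_cast hN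
      have e : (n : ℝ) * (r * (N * (1 / (2 * n * (r + 1))))) = N * (r / (2 * (r + 1))) := by
        field_simp
      rw [e]
      have h7 : (r : ℝ) / (2 * (r + 1)) < 1 := by
        rw [div_lt_one (by positivity)]
        have : (0 : ℝ) ≤ r := Nat.cast_nonneg _
        linarith
      nlinarith
    exact_mod_cast h4)
  refine amp_congr hν ?_ h2
  have h3 : ci ν (∏ i, E i ^ (y i)) = y := by
    have h3 : ci ν (∏ i, E i ^ (y i)) = ∑ i, ci ν (E i ^ (y i)) := by
      unfold ci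
      rw [map_prod, toAdd_prod]
    rw [h3]
    funext j
    simp only [ci_zpow, hE, Finset.sum_apply, Pi.smul_apply, Pi.single_apply, smul_eq_mul]
    simp
  rw [ci_mul, h3, ci_pow, hy]
  abel

theorem cc_ample {D : Cart X} (h : rv (ci ν D) ∈ CC ν) : Ample D := by
  obtain ⟨δ, hδ, h1⟩ := h
  refine h1 1 D one_pos ?_
  rw [Nat.cast_one, one_smul, sub_self, norm_zero]
  linarith

theorem cc_iff (hX : IsVar X) (hν : NumR ν) (D : Cart X) : rv (ci ν D) ∈ CC ν ↔ Ample D :=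
  ⟨cc_ample, cc_amp hX hν⟩

theorem ampR_cc (hX : IsVar X) (hν : NumR ν) : AmpR ν ⊆ CC ν := by
  rintro v ⟨m, c, D, hc, hD, rfl⟩
  have h1 : ∀ i, c i • rv (ci ν (D i)) ∈ CC ν := fun i => cc_smul (hc i) (cc_amp hX hν (hD i))
  clear hc hD
  have h2 : ∀ f : Fin (m + 1) → (Fin r → ℝ), (∀ i, f i ∈ CC ν) → ∑ i, f i ∈ CC ν := by
    clear h1
    induction m with
    | zero =>
      intro f hf
      rw [Fin.sum_univ_one]
      exact hf 0
    | succ m ih =>
      intro f hf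
      rw [Fin.sum_univ_castSucc]
      exact cc_add hX hν (ih (fun i => c i.castSucc) (fun i => D i.castSucc) _ fun i => hf _) (hf _)
  exact h2 _ h1

theorem cc_cl (hν : NumR ν) : CC ν ⊆ closure (AmpR ν) := by
  rintro x ⟨δ, hδ, h⟩
  rw [Metric.mem_closure_iff]
  intro ε hε
  obtain ⟨N, d, hN, h1, h2⟩ := exists_near x (show 0 < min (ε / 2) δ from lt_min (by positivity) hδ)
  have hN0 : (0 : ℝ) < N := by exact_mod_cast hN
  obtain ⟨D, hD⟩ := ci_surj hν d
  have h3 : Ample D := by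
    refine h N D hN ?_
    rw [hD]
    refine h2.trans (h1.trans ?_)
    exact mul_le_mul_of_nonneg_left (min_le_right _ _) hN0.le
  refine ⟨(N : ℝ)⁻¹ • rv d, ⟨0, fun _ => (N : ℝ)⁻¹, fun _ => D, fun _ => by positivity, fun _ => h3, ?_⟩, ?_⟩
  · rw [Fin.sum_univ_one, hD]
  · have e : x - (N : ℝ)⁻¹ • rv d = (N : ℝ)⁻¹ • -(rv d - (N : ℝ) • x) := by
      rw [neg_sub, smul_sub, smul_smul, inv_mul_cancel₀ hN0.ne', one_smul]
    rw [dist_eq_norm, e, norm_smul, norm_neg, norm_inv, Real.norm_eq_abs, abs_of_pos hN0]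
    have h4 : (N : ℝ)⁻¹ * ‖rv d - (N : ℝ) • x‖ ≤ (N : ℝ)⁻¹ * 1 := mul_le_mul_of_nonneg_left h2 (by positivity)
    have h5 : (N : ℝ)⁻¹ * 1 ≤ (N : ℝ)⁻¹ * (N * (ε / 2)) :=
      mul_le_mul_of_nonneg_left (h1.trans (mul_le_mul_of_nonneg_left (min_le_left _ _) hN0.le)) (by positivity)
    rw [← mul_assoc, inv_mul_cancel₀ hN0.ne', one_mul] at h5
    linarith

theorem cl_eq (hX : IsVar X) (hν : NumR ν) : closure (AmpR ν) = closure (CC ν) :=
  le_antisymm (closure_mono (ampR_cc hX hν)) (closure_minimal (cc_cl hν) isClosed_closure)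

/-- the directions -/
theorem cc_dir (hX : IsVar X) (hν : NumR ν) {l : Cart X → ℝ} (hl : ∀ U V, l (U * V) = l U + l V)
    (hlp : ∀ A, Ample A → 0 < l A) {A : Cart X} (hA : Ample A) :
    ∃ L : (Fin r → ℝ) →ₗ[ℝ] ℝ, (∀ D, L (rv (ci ν D)) = l D) ∧ Dir (CC ν) (rv (ci ν A)) L := by
  obtain ⟨L, hL⟩ := exists_ext hν hl fun D hD => nz_zero hl (fun A hA => (hlp A hA).le) ⟨A, hA⟩ hD
  refine ⟨L, hL, ⟨cc_open, fun x hx y hy => cc_add hX hν hx hy, fun c hc x hx => cc_smul hc hx⟩, cc_amp hX hν hA,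
    fun x hx => ?_, ?_⟩
  · have h1 : IsClosed {x | 0 ≤ L x} :=
      isClosed_le continuous_const (LinearMap.continuous_of_finiteDimensional L)
    have h2 : AmpR ν ⊆ {x | 0 ≤ L x} := by
      rintro v ⟨m, c, D, hc, hD, rfl⟩
      show 0 ≤ L _
      rw [map_sum]
      refine Finset.sum_nonneg fun i _ => ?_
      rw [map_smul, hL, smul_eq_mul]
      exact mul_nonneg (hc i).le (hlp _ (hD i)).le
    exact closure_minimal h2 h1 (cc_cl hν hx)
  · rw [hL]
    exact hlp A hA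

end Pool.Agent.H20.TD
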