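import Pool.Agent.H20.TD.Lem

/-!
# THEOREM D (MP_e49dc9_ag): the threshold function of an open convex cone

`OC C`: `C` is an open convex cone.  `thf C a v`: the infimum of the `t` with `v + t a ∈ C`.
-/

set_option autoImplicit false

namespace Pool.Agent.H20.TD

variable {V : Type*} [NormedAddCommGroup V] [NormedSpace ℝ V]

/-- open convex cones -/
structure OC (C : Set V) : Prop where
  op : IsOpen C
  add : ∀ x ∈ C, ∀ y ∈ C, x + y ∈ C
  smul : ∀ c : ℝ, 0 < c → ∀ x ∈ C, c • x ∈ C

variable {C : Set V} {a : V} {l : V →ₗ[ℝ] ℝ}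

theorem OC.add_cl (h : OC C) {x y : V} (hx : x ∈ C) (hy : y ∈ closure C) : x + y ∈ C := by
  have h1 : IsOpen {y' : V | x + y - y' ∈ C} := h.op.preimage (by fun_prop)
  obtain ⟨y', h2, h3⟩ := mem_closure_iff.1 hy _ h1 (by
    show x + y - y ∈ C
    rwa [add_sub_cancel_right])
  have h4 := h.add _ h2 _ h3
  rwa [sub_add_cancel] at h4

/-- small changes -/
theorem OC.sub_small (h : OC C) {x : V} (hx : x ∈ C) (v : V) : ∃ ε : ℝ, 0 < ε ∧ ∀ t : ℝ, |t| ≤ ε → x + t • v ∈ C := by
  have h1 : IsOpen {t : ℝ | x + t • v ∈ C} := h.op.preimage (by fun_prop)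
  obtain ⟨ε, h2, h3⟩ := Metric.isOpen_iff.1 h1 0 (by
    show x + (0 : ℝ) • v ∈ C
    rwa [zero_smul, add_zero])
  refine ⟨ε / 2, by positivity, fun t ht => h3 ?_⟩
  rw [Metric.mem_ball, Real.dist_eq, sub_zero]
  linarith

/-- the threshold of `v` in the direction `a` -/
noncomputable def thf (C : Set V) (a v : V) : ℝ := sInf {t : ℝ | v + t • a ∈ C}

/-- the data: `a ∈ C` and a linear functional, `≥ 0` on `C`, positive at `a` -/
structure Dir (C : Set V) (a : V) (l : V →ₗ[ℝ] ℝ) : Prop extends OC C where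
  ha : a ∈ C
  nn : ∀ x ∈ C, 0 ≤ l x
  la : 0 < l a

theorem Dir.pos (h : Dir C a l) {x : V} (hx : x ∈ C) : 0 < l x := by
  obtain ⟨ε, h1, h2⟩ := h.toOC.sub_small hx a
  have h3 := h.nn _ (h2 (-ε) (by rw [abs_neg, abs_of_pos h1]))
  rw [map_add, map_smul, smul_eq_mul] at h3
  have := mul_pos h1 h.la
  linarith

theorem Dir.ne (h : Dir C a l) (v : V) : {t : ℝ | v + t • a ∈ C}.Nonempty := by
  obtain ⟨ε, h1, h2⟩ := h.toOC.sub_small h.ha v
  refine ⟨ε⁻¹, ?_⟩
  have h3 := h.smul ε⁻¹ (by positivity) _ (h2 ε (by rw [abs_of_pos h1]))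
  rw [smul_add, smul_smul, inv_mul_cancel₀ h1.ne', one_smul, add_comm] at h3
  exact h3

theorem Dir.bdd (h : Dir C a l) (v : V) : BddBelow {t : ℝ | v + t • a ∈ C} := by
  refine ⟨- l v / l a, fun t ht => ?_⟩
  have h1 := h.nn _ ht
  rw [map_add, map_smul, smul_eq_mul] at h1
  rw [div_le_iff₀ h.la]
  linarith

theorem Dir.lt_iff (h : Dir C a l) (v : V) (t : ℝ) : thf C a v < t ↔ v + t • a ∈ C := by
  constructor
  · intro h1
    obtain ⟨t', h2, h3⟩ := exists_lt_of_csInf_lt (h.ne v) h1
    have h4 := h.add _ h2 _ (h.smul (t - t') (by linarith) _ h.ha)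
    rwa [add_assoc, ← add_smul, add_sub_cancel] at h4
  · intro h1
    obtain ⟨ε, h2, h3⟩ := h.toOC.sub_small h1 a
    have h4 := h3 (-ε) (by rw [abs_neg, abs_of_pos h2])
    rw [add_assoc, ← add_smul] at h4
    exact (csInf_le (h.bdd v) h4).trans_lt (by linarith)

theorem Dir.le_iff (h : Dir C a l) (v : V) (t : ℝ) : thf C a v ≤ t ↔ v + t • a ∈ closure C := by
  constructor
  · intro h1
    rw [mem_closure_iff_seq_limit]
    refine ⟨fun n => v + (t + 1 / ((n : ℝ) + 1)) • a, fun n => ?_, ?_⟩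
    · refine (h.lt_iff v _).1 ?_
      have : (0 : ℝ) < 1 / ((n : ℝ) + 1) := by positivity
      linarith
    · have h2 : Filter.Tendsto (fun n : ℕ => t + 1 / ((n : ℝ) + 1)) Filter.atTop (nhds (t + 0)) :=
        tendsto_const_nhds.add tendsto_one_div_add_atTop_nhds_zero_nat
      rw [add_zero] at h2
      exact tendsto_const_nhds.add (h2.smul_const a)
  · intro h1
    refine le_of_forall_pos_le_add fun ε hε => ?_
    refine ((h.lt_iff v _).2 ?_).le
    have h2 := h.toOC.add_cl (h.smul ε hε _ h.ha) h1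
    have h3 : ε • a + (v + t • a) = v + (t + ε) • a := by
      rw [add_smul]
      abel
    rwa [h3] at h2

theorem Dir.shift (h : Dir C a l) (v : V) (t : ℝ) : thf C a (v + t • a) = thf C a v - t := by
  refine le_antisymm ?_ ?_
  · refine (h.le_iff _ _).2 ?_
    rw [add_assoc, ← add_smul, add_sub_cancel]
    exact (h.le_iff _ _).1 le_rfl
  · have h1 := (h.le_iff (v + t • a) (thf C a (v + t • a))).1 le_rfl
    rw [add_assoc, ← add_smul] at h1
    have h2 := (h.le_iff _ _).2 h1
    linarith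

theorem Dir.sub (h : Dir C a l) : Sub (thf C a) := by
  refine ⟨fun x y => ?_, ?_⟩
  · refine (h.le_iff _ _).2 ?_
    have h1 := (h.le_iff x _).1 le_rfl
    have h2 := (h.le_iff y _).1 le_rfl
    have h3 : x + thf C a x • a + (y + thf C a y • a) = x + y + (thf C a x + thf C a y) • a := by
      rw [add_smul]
      abel
    rw [← h3]
    have h4 : ∀ u ∈ closure C, ∀ w ∈ closure C, u + w ∈ closure C := fun u hu w hw =>
      map_mem_closure₂ continuous_add hu hw h.add
    exact h4 _ h1 _ h2
  · have h1 : ∀ c : ℝ, 0 < c → ∀ x, thf C a (c • x) ≤ c * thf C a x := by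
      intro c hc x
      refine (h.le_iff _ _).2 ?_
      have h2 := (h.le_iff x _).1 le_rfl
      have h3 : c • (x + thf C a x • a) ∈ closure C :=
        map_mem_closure (f := fun v => c • v) (by fun_prop) h2 fun v hv => h.smul c hc v hv
      rwa [smul_add, smul_smul] at h3
    intro c hc x
    rcases hc.eq_or_lt with rfl | hc
    · rw [zero_smul, zero_mul]
      refine le_antisymm ?_ ?_
      · refine le_of_forall_pos_le_add fun ε hε => ?_
        refine ((h.lt_iff _ _).2 ?_).le
        rw [zero_add, zero_add]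
        exact h.smul ε hε _ h.ha
      · by_contra h2
        push Not at h2
        have h3 := (h.lt_iff _ _).1 h2
        rw [zero_add, zero_smul] at h3
        have h4 := h.pos h3
        rw [map_zero] at h4
        exact lt_irrefl _ h4
    · refine le_antisymm (h1 c hc x) ?_
      have h2 := h1 c⁻¹ (by positivity) (c • x)
      rw [smul_smul, inv_mul_cancel₀ hc.ne', one_smul] at h2
      calc c * thf C a x ≤ c * (c⁻¹ * thf C a (c • x)) := mul_le_mul_of_nonneg_left h2 hc.le
        _ = thf C a (c • x) := by rw [← mul_assoc, mul_inv_cancel₀ hc.ne', one_mul]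

/-- the boundary of the closed cone -/
theorem Dir.fr (h : Dir C a l) (p : V) : p ∈ frontier (closure C) ↔ thf C a p = 0 := by
  have h0 := h.le_iff p 0
  rw [zero_smul, add_zero] at h0
  have h1 := h.lt_iff p 0
  rw [zero_smul, add_zero] at h1
  rw [isClosed_closure.frontier_eq, Set.mem_sdiff, ← h0]
  constructor
  · rintro ⟨h2, h3⟩
    refine le_antisymm h2 ?_
    by_contra h4
    push Not at h4
    exact h3 (interior_maximal subset_closure h.op (h1.1 h4))
  · intro h2
    refine ⟨h2.le, fun h3 => ?_⟩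
    have h4 : IsOpen {t : ℝ | p + t • a ∈ interior (closure C)} := isOpen_interior.preimage (by fun_prop)
    obtain ⟨ε, h5, h6⟩ := Metric.isOpen_iff.1 h4 0 (by
      show p + (0 : ℝ) • a ∈ interior (closure C)
      rwa [zero_smul, add_zero])
    have h7 : p + (-(ε / 2)) • a ∈ interior (closure C) := h6 (by
      rw [Metric.mem_ball, Real.dist_eq, sub_zero, abs_neg, abs_of_pos (by positivity)]
      linarith)
    have h8 := (h.le_iff p _).2 (interior_subset h7)
    linarith

end Pool.Agent.H20.TD
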