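import Mathlib

/-!
# THEOREM D (MP_e49dc9_ag): sublinear functions with bounded denominators are piecewise linear

`Sub s`: `s` is sublinear.  `dd g w v`: the derivative of `g` at `w` in the direction `v`.  `Phi κ s`: the linear
functionals `φ ≤ s` with `κ φ` integral; a finite set.

`cover`: if `κ s(D)` is an integer for the integral `D` in the open cone `Ω` then on `Ω` the function `s` is the maximum of
the functionals of `Phi κ s`.
-/

set_option autoImplicit false

namespace Pool.Agent.H20.TD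

/-- sublinear functions -/
structure Sub {V : Type*} [AddCommGroup V] [Module ℝ V] (s : V → ℝ) : Prop where
  add : ∀ x y, s (x + y) ≤ s x + s y
  smul : ∀ c : ℝ, 0 ≤ c → ∀ x, s (c • x) = c * s x

section gen

variable {V : Type*} [AddCommGroup V] [Module ℝ V] {s g : V → ℝ}

theorem Sub.zero (h : Sub s) : s 0 = 0 := by
  have h1 := h.smul 0 le_rfl 0
  rwa [zero_smul, zero_mul] at h1

theorem Sub.nn (h : Sub s) (x : V) : 0 ≤ s x + s (-x) := by
  have h1 := h.add x (-x)
  rwa [add_neg_cancel, h.zero] at h1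

theorem Sub.sum (h : Sub s) {ι : Type*} (S : Finset ι) (f : ι → V) : s (∑ i ∈ S, f i) ≤ ∑ i ∈ S, s (f i) := by
  classical
  induction S using Finset.induction_on with
  | empty => simp [h.zero]
  | insert a S ha ih =>
    rw [Finset.sum_insert ha, Finset.sum_insert ha]
    exact (h.add _ _).trans (by linarith)

/-- the derivative of `g` at `w` in the direction `v` -/
noncomputable def dd (g : V → ℝ) (w v : V) : ℝ := ⨅ t : NNReal, (g ((t : ℝ) • w + v) - t * g w)

theorem dd_lb (h : Sub g) (w v : V) (t : ℝ) (ht : 0 ≤ t) : - g (-v) ≤ g (t • w + v) - t * g w := by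
  have h1 := h.add (t • w + v) (-v)
  rw [add_neg_cancel_right, h.smul t ht] at h1
  linarith

theorem dd_bdd (h : Sub g) (w v : V) : BddBelow (Set.range fun t : NNReal => g ((t : ℝ) • w + v) - t * g w) := by
  refine ⟨- g (-v), ?_⟩
  rintro _ ⟨t, rfl⟩
  exact dd_lb h w v t t.2

theorem dd_le (h : Sub g) (w v : V) (t : ℝ) (ht : 0 ≤ t) : dd g w v ≤ g (t • w + v) - t * g w :=
  ciInf_le (dd_bdd h w v) (⟨t, ht⟩ : NNReal)

theorem le_dd {w v : V} {a : ℝ} (h : ∀ t : ℝ, 0 ≤ t → a ≤ g (t • w + v) - t * g w) : a ≤ dd g w v :=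
  le_ciInf fun t => h t t.2

theorem dd_le_self (h : Sub g) (w v : V) : dd g w v ≤ g v := by
  have h1 := dd_le h w v 0 le_rfl
  rwa [zero_smul, zero_add, zero_mul, sub_zero] at h1

theorem dd_anti (h : Sub g) (w v : V) (t t' : ℝ) (htt : t ≤ t') :
    g (t' • w + v) - t' * g w ≤ g (t • w + v) - t * g w := by
  have h1 := h.add ((t' - t) • w) (t • w + v)
  rw [← add_assoc, ← add_smul, sub_add_cancel, h.smul _ (by linarith)] at h1
  linarith

theorem dd_sub (h : Sub g) (w : V) : Sub (dd g w) := by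
  have h1 : ∀ c : ℝ, 0 < c → ∀ x, dd g w (c • x) ≤ c * dd g w x := by
    intro c hc x
    have h2 : dd g w (c • x) / c ≤ dd g w x := by
      refine le_dd fun t ht => ?_
      rw [div_le_iff₀ hc]
      have h3 := dd_le h w (c • x) (c * t) (by positivity)
      rw [mul_smul, ← smul_add, h.smul c hc.le] at h3
      linarith
    rw [div_le_iff₀ hc] at h2
    linarith
  refine ⟨fun x y => ?_, fun c hc x => ?_⟩
  · refine le_ciInf_add_ciInf fun t t' => ?_
    have h2 := dd_le h w (x + y) ((t : ℝ) + t') (by positivity)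
    have h3 := h.add ((t : ℝ) • w + x) ((t' : ℝ) • w + y)
    have h4 : (t : ℝ) • w + x + ((t' : ℝ) • w + y) = ((t : ℝ) + t') • w + (x + y) := by
      rw [add_smul]
      abel
    rw [h4] at h3
    linarith
  · rcases hc.eq_or_lt with rfl | hc
    · rw [zero_smul, zero_mul]
      refine le_antisymm ?_ (le_dd fun t ht => ?_)
      · have h2 := dd_le h w 0 0 le_rfl
        rwa [zero_smul, zero_add, zero_mul, sub_zero, h.zero] at h2
      · rw [add_zero, h.smul t ht, sub_self]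
    · refine le_antisymm (h1 c hc x) ?_
      have h2 := h1 c⁻¹ (by positivity) (c • x)
      rw [smul_smul, inv_mul_cancel₀ hc.ne', one_smul] at h2
      calc c * dd g w x ≤ c * (c⁻¹ * dd g w (c • x)) := mul_le_mul_of_nonneg_left h2 hc.le
        _ = dd g w (c • x) := by rw [← mul_assoc, mul_inv_cancel₀ hc.ne', one_mul]

theorem dd_self (h : Sub g) (w : V) : dd g w w = g w := by
  refine le_antisymm (dd_le_self h w w) (le_dd fun t ht => ?_)
  have h1 : t • w + w = (t + 1) • w := by rw [add_smul, one_smul]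
  rw [h1, h.smul _ (by linarith)]
  linarith

theorem dd_neg (h : Sub g) (w : V) : dd g w (-w) = - g w := by
  refine le_antisymm ?_ ?_
  · have h1 := dd_le h w (-w) 1 zero_le_one
    rw [one_smul, add_neg_cancel, h.zero] at h1
    linarith
  · have h1 := (dd_sub h w).nn w
    rw [dd_self h] at h1
    linarith

/-- the directions in which `g` is linear stay -/
theorem dd_lin (h : Sub g) (w u : V) (hu : g (-u) = - g u) : dd g w u = g u ∧ dd g w (-u) = - g u := by
  have h1 := dd_le_self h w u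
  have h2 := dd_le_self h w (-u)
  have h3 := (dd_sub h w).nn u
  constructor <;> linarith

theorem dd_int (h : Sub g) (w v : V) {κ : ℝ} (hκ : 0 < κ) (N : ℕ)
    (hn : ∀ n : ℕ, N ≤ n → ∃ z : ℤ, κ * g ((n : ℝ) • w + v) = z) (hw : ∃ z : ℤ, κ * g w = z) :
    ∃ z : ℤ, κ * dd g w v = z := by
  obtain ⟨z1, hz1⟩ := hw
  obtain ⟨z0, ⟨n0, hn0, hz0⟩, hmin⟩ := Int.exists_least_of_bdd
    (P := fun z => ∃ n : ℕ, N ≤ n ∧ κ * (g ((n : ℝ) • w + v) - n * g w) = z) (by
      refine ⟨⌊κ * (- g (-v))⌋, ?_⟩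
      rintro z ⟨n, -, hz⟩
      have h1 := dd_lb h w v n (Nat.cast_nonneg n)
      have h2 := mul_le_mul_of_nonneg_left h1 hκ.le
      rw [hz] at h2
      exact_mod_cast (Int.floor_le _).trans h2) (by
      obtain ⟨z, hz⟩ := hn N le_rfl
      refine ⟨z - N * z1, N, le_rfl, ?_⟩
      push_cast
      rw [← hz, ← hz1]
      ring)
  refine ⟨z0, le_antisymm ?_ ?_⟩
  · rw [← hz0]
    exact mul_le_mul_of_nonneg_left (dd_le h w v n0 (Nat.cast_nonneg n0)) hκ.le
  · have h3 : (z0 : ℝ) / κ ≤ dd g w v := by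
      refine le_dd fun t ht => ?_
      rw [div_le_iff₀ hκ]
      obtain ⟨n, h4⟩ := exists_nat_ge t
      obtain ⟨z, hz⟩ := hn (max N n) (le_max_left _ _)
      have h5 := hmin (z - (max N n : ℕ) * z1) ⟨max N n, le_max_left _ _, by
        push_cast at hz ⊢
        rw [← hz, ← hz1]
        ring⟩
      have h6 : ((z0 : ℤ) : ℝ) ≤ (z : ℝ) - ((max N n : ℕ) : ℝ) * z1 := by exact_mod_cast h5
      rw [← hz, ← hz1] at h6
      have h7 := dd_anti h w v t ((max N n : ℕ) : ℝ) (h4.trans (by exact_mod_cast le_max_right _ _))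
      have h8 := mul_le_mul_of_nonneg_left h7 hκ.le
      have h9 : κ * g (((max N n : ℕ) : ℝ) • w + v) - ((max N n : ℕ) : ℝ) * (κ * g w) =
          κ * (g (((max N n : ℕ) : ℝ) • w + v) - ((max N n : ℕ) : ℝ) * g w) := by ring
      rw [h9] at h6
      linarith
    rwa [div_le_iff₀ hκ, mul_comm] at h3

end gen

variable {r : ℕ} {s g : (Fin r → ℝ) → ℝ}

/-- the real vector of an integral vector -/
def rv (D : Fin r → ℤ) : Fin r → ℝ := fun i => (D i : ℝ)

theorem rv_add (D E : Fin r → ℤ) : rv (D + E) = rv D + rv E := by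
  funext i
  simp [rv]

theorem rv_smul (n : ℤ) (D : Fin r → ℤ) : rv (n • D) = (n : ℝ) • rv D := by
  funext i
  simp [rv]

theorem rv_single (i : Fin r) : rv (Pi.single i 1) = Pi.single i 1 := by
  funext j
  by_cases h : j = i
  · subst h
    simp [rv]
  · simp [rv, h]

theorem rv_neg (D : Fin r → ℤ) : rv (-D) = - rv D := by
  funext i
  simp [rv]

/-- a sublinear function which is linear on the lines of the basis is linear -/
theorem lin_of (h : Sub g) (hl : ∀ i : Fin r, g (-(Pi.single i 1)) = - g (Pi.single i 1)) (v : Fin r → ℝ) :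
    g v = (fun i => g (Pi.single i 1)) ⬝ᵥ v := by
  have h1 : ∀ v : Fin r → ℝ, g v ≤ (fun i => g (Pi.single i 1)) ⬝ᵥ v := by
    intro v
    have h2 : v = ∑ i, (v i) • (Pi.single i 1 : Fin r → ℝ) := by
      funext j
      simp [Finset.sum_apply, Pi.single_apply]
    conv_lhs => rw [h2]
    refine (h.sum _ _).trans (le_of_eq ?_)
    refine Finset.sum_congr rfl fun i _ => ?_
    rcases le_total 0 (v i) with h3 | h3
    · rw [h.smul _ h3, mul_comm]
    · have h4 : (v i) • (Pi.single i 1 : Fin r → ℝ) = (-(v i)) • (-(Pi.single i 1)) := by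
        rw [smul_neg, neg_smul, neg_neg]
      rw [h4, h.smul _ (by linarith), hl]
      ring
  refine le_antisymm (h1 v) ?_
  have h2 := h1 (-v)
  rw [dotProduct_neg] at h2
  have h3 := h.nn v
  linarith

/-- the integral functionals below `s` -/
def Phi (κ : ℝ) (s : (Fin r → ℝ) → ℝ) : Set (Fin r → ℝ) :=
  {φ | (∀ i, ∃ z : ℤ, κ * φ i = z) ∧ ∀ v, φ ⬝ᵥ v ≤ s v}

theorem exists_lin (h : Sub s) {κ : ℝ} (hκ : 0 < κ) (D : Fin r → ℤ)
    (hD : ∀ v : Fin r → ℤ, ∃ N : ℕ, ∀ n : ℕ, N ≤ n → ∃ z : ℤ, κ * s ((n : ℝ) • rv D + rv v) = z)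
    (hD0 : ∃ z : ℤ, κ * s (rv D) = z) : ∃ φ ∈ Phi κ s, φ ⬝ᵥ rv D = s (rv D) := by
  have key : ∀ S : Finset (Fin r), ∃ g : (Fin r → ℝ) → ℝ, Sub g ∧ (∀ v, g v ≤ s v) ∧ g (rv D) = s (rv D) ∧
      g (-(rv D)) = - g (rv D) ∧ (∀ v : Fin r → ℤ, ∃ z : ℤ, κ * g (rv v) = z) ∧
      ∀ i ∈ S, g (-(Pi.single i 1)) = - g (Pi.single i 1) := by
    classical
    intro S
    induction S using Finset.induction_on with
    | empty =>
      refine ⟨dd s (rv D), dd_sub h _, dd_le_self h _, dd_self h _, ?_, fun v => ?_, by simp⟩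
      · rw [dd_neg h, dd_self h]
      · obtain ⟨N, hN⟩ := hD v
        exact dd_int h _ _ hκ N hN hD0
    | insert a S ha ih =>
      obtain ⟨g, h1, h2, h3, h4, h5, h6⟩ := ih
      refine ⟨dd g (Pi.single a 1), dd_sub h1 _, fun v => (dd_le_self h1 _ v).trans (h2 v), ?_, ?_, fun v => ?_, ?_⟩
      · rw [(dd_lin h1 _ _ h4).1, h3]
      · rw [(dd_lin h1 _ _ h4).1, (dd_lin h1 _ _ h4).2]
      · refine dd_int h1 _ _ hκ 0 (fun n _ => ?_) ?_
        · have h7 := h5 ((n : ℤ) • (Pi.single a 1) + v)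
          rw [rv_add, rv_smul, rv_single] at h7
          exact_mod_cast h7
        · have h7 := h5 (Pi.single a 1)
          rwa [rv_single] at h7
      · intro i hi
        rcases Finset.mem_insert.1 hi with rfl | hi
        · rw [dd_neg h1, dd_self h1]
        · rw [(dd_lin h1 _ _ (h6 i hi)).1, (dd_lin h1 _ _ (h6 i hi)).2]
  obtain ⟨g, h1, h2, h3, -, h5, h6⟩ := key Finset.univ
  have h7 := lin_of h1 (fun i => h6 i (Finset.mem_univ i))
  refine ⟨fun i => g (Pi.single i 1), ⟨fun i => ?_, fun v => ?_⟩, ?_⟩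
  · have h8 := h5 (Pi.single i 1)
    rwa [rv_single] at h8
  · rw [← h7 v]
    exact h2 v
  · rw [← h7, h3]

theorem phi_fin {κ : ℝ} (hκ : 0 < κ) (s : (Fin r → ℝ) → ℝ) : (Phi κ s).Finite := by
  have h1 : (Set.univ.pi fun i : Fin r => (fun z : ℤ => (z : ℝ) / κ) ''
      Set.Icc (-⌈κ * s (-(Pi.single i 1))⌉) ⌈κ * s (Pi.single i 1)⌉).Finite :=
    Set.Finite.pi fun i => (Set.finite_Icc _ _).image _
  refine h1.subset ?_
  rintro φ ⟨h2, h3⟩ i -
  obtain ⟨z, hz⟩ := h2 i
  refine ⟨z, ⟨?_, ?_⟩, ?_⟩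
  · have h4 := h3 (-(Pi.single i 1))
    rw [dotProduct_neg, dotProduct_single, mul_one] at h4
    have h5 := mul_le_mul_of_nonneg_left h4 hκ.le
    have h6 : (-z : ℝ) ≤ ⌈κ * s (-(Pi.single i 1))⌉ := by
      refine le_trans ?_ (Int.le_ceil _)
      linarith
    have h7 : -z ≤ ⌈κ * s (-(Pi.single i 1))⌉ := by exact_mod_cast h6
    linarith
  · have h4 := h3 (Pi.single i 1)
    rw [dotProduct_single, mul_one] at h4
    have h5 := mul_le_mul_of_nonneg_left h4 hκ.le
    have h6 : (z : ℝ) ≤ ⌈κ * s (Pi.single i 1)⌉ := by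
      refine le_trans ?_ (Int.le_ceil _)
      linarith
    exact_mod_cast h6
  · show (z : ℝ) / κ = φ i
    rw [← hz]
    field_simp

theorem sub_cont (h : Sub s) : Continuous s := by
  obtain ⟨C, hC⟩ : ∃ C : ℝ, ∀ i : Fin r, ∀ c : ℝ, s (c • Pi.single i 1) ≤ C * |c| := by
    refine ⟨∑ i : Fin r, (|s (Pi.single i 1)| + |s (-(Pi.single i 1))|), fun i c => ?_⟩
    have h1 : |s (Pi.single i 1)| + |s (-(Pi.single i 1))| ≤
        ∑ i : Fin r, (|s (Pi.single i 1)| + |s (-(Pi.single i 1))|) :=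
      Finset.single_le_sum (f := fun i : Fin r => |s (Pi.single i 1)| + |s (-(Pi.single i 1))|)
        (fun i _ => by positivity) (Finset.mem_univ i)
    refine le_trans ?_ (mul_le_mul_of_nonneg_right h1 (abs_nonneg c))
    have h2 := abs_nonneg (s (Pi.single i 1))
    have h3 := abs_nonneg (s (-(Pi.single i 1)))
    rcases le_total 0 c with hc | hc
    · rw [h.smul _ hc, abs_of_nonneg hc]
      nlinarith [le_abs_self (s (Pi.single i 1))]
    · have h4 : c • (Pi.single i 1 : Fin r → ℝ) = (-c) • (-(Pi.single i 1)) := by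
        rw [smul_neg, neg_smul, neg_neg]
      rw [h4, h.smul _ (by linarith), abs_of_nonpos hc]
      nlinarith [le_abs_self (s (-(Pi.single i 1)))]
  have hC0 : 0 ≤ C ∨ IsEmpty (Fin r) := by
    rcases isEmpty_or_nonempty (Fin r) with h1 | ⟨⟨i⟩⟩
    · exact Or.inr h1
    · left
      have h1 := hC i 1
      have h2 := hC i (-1)
      have h3 := h.nn ((1 : ℝ) • Pi.single i 1)
      rw [← neg_smul] at h3
      rw [abs_one] at h1
      rw [abs_neg, abs_one] at h2
      linarith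
  have hb : ∀ v : Fin r → ℝ, s v ≤ (r * |C|) * ‖v‖ := by
    intro v
    have h2 : v = ∑ i, (v i) • (Pi.single i 1 : Fin r → ℝ) := by
      funext j
      simp [Finset.sum_apply, Pi.single_apply]
    have h3 : s v ≤ ∑ i : Fin r, |C| * ‖v‖ := by
      conv_lhs => rw [h2]
      refine (h.sum _ _).trans (Finset.sum_le_sum fun i _ => ?_)
      refine (hC i (v i)).trans ?_
      have h4 : |v i| ≤ ‖v‖ := norm_le_pi_norm v i
      exact mul_le_mul (le_abs_self C) h4 (abs_nonneg _) (abs_nonneg _)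
    refine h3.trans (le_of_eq ?_)
    rw [Finset.sum_const, Finset.card_univ, Fintype.card_fin, nsmul_eq_mul]
    ring
  have hL : LipschitzWith (Real.toNNReal (r * |C|)) s := by
    refine LipschitzWith.of_dist_le_mul fun x y => ?_
    rw [Real.coe_toNNReal _ (by positivity), Real.dist_eq, dist_eq_norm, abs_le]
    constructor
    · have h1 := h.add x (y - x)
      rw [add_sub_cancel] at h1
      have h2 := hb (y - x)
      rw [norm_sub_rev] at h2
      linarith
    · have h1 := h.add y (x - y)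
      rw [add_sub_cancel] at h1
      have h2 := hb (x - y)
      linarith
  exact hL.continuous

/-- rational points: the denominators -/
theorem exists_den (x : Fin r → ℚ) : ∃ (m : ℕ) (D : Fin r → ℤ), 0 < m ∧ rv D = (m : ℝ) • fun i => ((x i : ℚ) : ℝ) := by
  refine ⟨∏ i, (x i).den, fun i => (x i).num * ∏ j ∈ Finset.univ.erase i, ((x j).den : ℤ),
    Finset.prod_pos fun i _ => (x i).den_pos, ?_⟩
  funext i
  have h1 : (∏ j, ((x j).den : ℝ)) = (x i).den * ∏ j ∈ Finset.univ.erase i, ((x j).den : ℝ) :=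
    (Finset.mul_prod_erase Finset.univ (fun j => ((x j).den : ℝ)) (Finset.mem_univ i)).symm
  have h2 : ((x i : ℚ) : ℝ) = (x i).num / (x i).den := by
    exact_mod_cast congrArg (fun q : ℚ => (q : ℝ)) (Rat.num_div_den (x i)).symm
  have h3 : ((x i).den : ℝ) ≠ 0 := by exact_mod_cast (x i).den_nz
  simp only [rv, Pi.smul_apply, smul_eq_mul]
  push_cast
  rw [h1, h2]
  field_simp

/-- rational points are dense -/
theorem dense_rat : DenseRange (fun (x : Fin r → ℚ) (i : Fin r) => ((x i : ℚ) : ℝ)) :=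
  DenseRange.piMap fun _ => Rat.denseRange_cast

/-- **sublinear functions with bounded denominators** -/
theorem cover (h : Sub s) {κ : ℝ} (hκ : 0 < κ) {Ω : Set (Fin r → ℝ)} (hΩ : IsOpen Ω)
    (hc : ∀ c : ℝ, 0 < c → ∀ x ∈ Ω, c • x ∈ Ω)
    (hs : ∀ D : Fin r → ℤ, rv D ∈ Ω → ∃ z : ℤ, κ * s (rv D) = z) :
    ∀ x ∈ Ω, ∃ φ ∈ Phi κ s, φ ⬝ᵥ x = s x := by
  have h1 : IsClosed (⋃ φ ∈ Phi κ s, {x : Fin r → ℝ | φ ⬝ᵥ x = s x}) := by
    refine (phi_fin hκ s).isClosed_biUnion fun φ _ => ?_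
    refine isClosed_eq ?_ (sub_cont h)
    unfold dotProduct
    fun_prop
  have h2 : Ω ⊆ closure (Ω ∩ Set.range (fun (x : Fin r → ℚ) (i : Fin r) => ((x i : ℚ) : ℝ))) :=
    dense_rat.open_subset_closure_inter hΩ
  have h3 : Ω ∩ Set.range (fun (x : Fin r → ℚ) (i : Fin r) => ((x i : ℚ) : ℝ)) ⊆
      ⋃ φ ∈ Phi κ s, {x : Fin r → ℝ | φ ⬝ᵥ x = s x} := by
    rintro _ ⟨h4, x, rfl⟩
    obtain ⟨m, D, hm, hD⟩ := exists_den x
    have hm' : (0 : ℝ) < m := by exact_mod_cast hm
    have h5 : rv D ∈ Ω := by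
      rw [hD]
      exact hc _ hm' _ h4
    obtain ⟨φ, h6, h7⟩ := exists_lin h hκ D (fun v => by
      have h8 : Filter.Tendsto (fun n : ℕ => rv D + ((n : ℝ))⁻¹ • rv v) Filter.atTop (nhds (rv D)) := by
        have h9 : Filter.Tendsto (fun n : ℕ => ((n : ℝ))⁻¹ • rv v) Filter.atTop (nhds ((0 : ℝ) • rv v)) :=
          (tendsto_inv_atTop_nhds_zero_nat (𝕜 := ℝ)).smul_const _
        have h10 := (tendsto_const_nhds (x := rv D)).add h9
        rwa [zero_smul, add_zero] at h10
      have h11 := h8.eventually (hΩ.mem_nhds h5)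
      obtain ⟨N, hN⟩ := Filter.eventually_atTop.1 h11
      refine ⟨max N 1, fun n hn => ?_⟩
      have hn1 : 1 ≤ n := (le_max_right _ _).trans hn
      have hn0 : (0 : ℝ) < n := by exact_mod_cast hn1
      have h12 := hc n hn0 _ (hN n ((le_max_left _ _).trans hn))
      rw [smul_add, smul_smul, mul_inv_cancel₀ hn0.ne', one_smul] at h12
      have h13 : ((n : ℝ)) • rv D + rv v = rv ((n : ℤ) • D + v) := by
        rw [rv_add, rv_smul]
        norm_num
      rw [h13] at h12 ⊢
      exact hs _ h12) (hs D h5)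
    refine Set.mem_biUnion h6 ?_
    rw [hD, dotProduct_smul, h.smul _ hm'.le, smul_eq_mul] at h7
    exact mul_left_cancel₀ hm'.ne' h7
  intro x hx
  have h4 := closure_minimal h3 h1 (h2 hx)
  rw [Set.mem_iUnion₂] at h4
  obtain ⟨φ, h5, h6⟩ := h4
  exact ⟨φ, h5, h6⟩

end Pool.Agent.H20.TD
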