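import Pool.Agent.H20.TD.Am
import Pool.Agent.H24.VP.Int
import Pool.Agent.H39.TQ.Def

/-!
# THEOREM D (MP_e49dc9_ag): the pieces of the boundary where a form with bounded denominators vanishes

`thD ν A D`: the threshold of the class of `D` with respect to `A`.  `ths_of`: if it is irrational it satisfies `Ths`.
`int_cub`, `int_quad`: if it is rational and a root of the cubic (of the quadric of a surface) it has bounded denominator.
`piece`: an open piece of the boundary where this is the case is covered by the hyperplanes of `Phi`.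
-/

set_option autoImplicit false

namespace Pool.Agent.H20.TD

open Pool.Agent.H54.RV Pool.Agent.H83.TU Pool.Agent.H83.TK Pool.Agent.H24.VP Pool.Agent.H39.TQ

variable {k K : Type} [Field k] [Field K] [Algebra k K] {X : Mod k K} {r : ℕ}
  {ν : Cart X →* Multiplicative (Fin r → ℤ)} {T : Cart X → Cart X → Cart X → ℝ} {l : Cart X → ℝ} {c : ℝ}
  {A D : Cart X} {L : (Fin r → ℝ) →ₗ[ℝ] ℝ}

/-- the real trilinear form -/
theorem exists_TR [CharZero k] [T0Space X.P] (h : Hyp X) (hr : RR T l c) (hν : NumR ν) :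
    ∃ TR : (Fin r → ℝ) →ₗ[ℝ] (Fin r → ℝ) →ₗ[ℝ] (Fin r → ℝ) →ₗ[ℝ] ℝ,
      ∀ U V W, TR (rv (ci ν U)) (rv (ci ν V)) (rv (ci ν W)) = T U V W := by
  have ht := hr.tri
  choose L1 h1 using fun U V => exists_ext hν (f := fun W => T U V W) (fun W W' => ht.add3 _ _ _ _)
    (fun W hW => by rw [ht.s23, ht.s12]; exact numz_T h hr hW U V)
  choose L2 h2 using fun U => exists_ext hν (f := fun V => L1 U V)
    (fun V V' => ext_uniq hν fun W => by rw [LinearMap.add_apply, h1, h1, h1, ht.add2])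
    (fun V hV => ext_uniq hν fun W => by rw [LinearMap.zero_apply, h1, ht.s12]; exact numz_T h hr hV U W)
  obtain ⟨L3, h3⟩ := exists_ext hν (f := fun U => L2 U)
    (fun U U' => ext_uniq hν fun V => ext_uniq hν fun W => by
      rw [LinearMap.add_apply, h2, h2, h2, LinearMap.add_apply, h1, h1, h1, ht.add])
    (fun U hU => ext_uniq hν fun V => ext_uniq hν fun W => by
      rw [LinearMap.zero_apply, h2, h1, LinearMap.zero_apply]; exact numz_T h hr hU V W)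
  exact ⟨L3, fun U V W => by rw [h3, h2, h1]⟩

variable (ν) in
/-- the threshold -/
noncomputable def thD (A D : Cart X) : ℝ := thf (CC ν) (rv (ci ν A)) (rv (ci ν D))

/-- ample and near the threshold -/
theorem amp_iff (hX : IsVar X) (hν : NumR ν) (hd : Dir (CC ν) (rv (ci ν A)) L) (D : Cart X) {a b : ℤ} (hb : 0 < b) :
    Ample (A ^ a * D ^ b) ↔ thD ν A D * b < a := by
  have hb' : (0 : ℝ) < b := by exact_mod_cast hb
  rw [← cc_iff hX hν, ← lt_div_iff₀ hb', thD, hd.lt_iff, ci_mul, ci_zpow, ci_zpow, rv_add, rv_smul, rv_smul]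
  constructor
  · intro h
    have h1 := hd.smul (b : ℝ)⁻¹ (by positivity) _ h
    have e : (b : ℝ)⁻¹ • ((a : ℝ) • rv (ci ν A) + (b : ℝ) • rv (ci ν D)) =
        rv (ci ν D) + ((a : ℝ) / b) • rv (ci ν A) := by
      rw [smul_add, smul_smul, smul_smul, inv_mul_cancel₀ hb'.ne', one_smul, add_comm, div_eq_inv_mul]
    rwa [e] at h1
  · intro h
    have h1 := hd.smul (b : ℝ) hb' _ h
    have e : (b : ℝ) • (rv (ci ν D) + ((a : ℝ) / b) • rv (ci ν A)) =
        (a : ℝ) • rv (ci ν A) + (b : ℝ) • rv (ci ν D) := by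
      rw [smul_add, smul_smul, mul_div_cancel₀ _ hb'.ne', add_comm]
    rwa [e] at h1

theorem ths_of (hX : IsVar X) (hν : NumR ν) (hd : Dir (CC ν) (rv (ci ν A)) L) (hA : Ample A) (D : Cart X)
    (hi : Irrational (thD ν A D)) : Ths A D (thD ν A D) :=
  ⟨hA, hi, fun _ _ hb h => (amp_iff hX hν hd D hb).2 h, fun _ _ hb h h1 =>
    lt_asymm ((amp_iff hX hν hd D hb).1 h1) h⟩

/-- rational roots of monic polynomials -/
theorem rat_int3 {y : ℝ} (hy : ¬ Irrational y) {a b e : ℤ} (h : y ^ 3 + a * y ^ 2 + b * y + e = 0) :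
    ∃ z : ℤ, y = z := by
  unfold Irrational at hy
  push Not at hy
  obtain ⟨q, rfl⟩ := hy
  have h1 : q ^ 3 + a * q ^ 2 + b * q + e = 0 := by exact_mod_cast h
  have h2 : IsIntegral ℤ q := by
    refine ⟨Polynomial.X ^ 3 + (Polynomial.C a * Polynomial.X ^ 2 + Polynomial.C b * Polynomial.X + Polynomial.C e),
      Polynomial.monic_X_pow_add ?_, ?_⟩
    · exact lt_of_le_of_lt Polynomial.degree_quadratic_le (by norm_num)
    · simp only [Polynomial.eval₂_add, Polynomial.eval₂_mul, Polynomial.eval₂_pow, Polynomial.eval₂_X,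
        Polynomial.eval₂_C]
      simp only [eq_intCast]
      rw [← h1]
      ring
  obtain ⟨z, hz⟩ := (IsIntegrallyClosed.isIntegral_iff (R := ℤ) (K := ℚ)).1 h2
  refine ⟨z, ?_⟩
  rw [← hz]
  simp

theorem rat_int2 {y : ℝ} (hy : ¬ Irrational y) {a b : ℤ} (h : y ^ 2 + a * y + b = 0) : ∃ z : ℤ, y = z := by
  refine rat_int3 hy (a := a) (b := b) (e := 0) ?_
  have e : y ^ 3 + a * y ^ 2 + b * y + ((0 : ℤ) : ℝ) = y * (y ^ 2 + a * y + b) := by
    push_cast
    ring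
  rw [e, h, mul_zero]

theorem not_irr_mul {s : ℝ} (hs : ¬ Irrational s) {κ : ℤ} : ¬ Irrational (κ * s) := by
  unfold Irrational at hs ⊢
  push Not at hs ⊢
  obtain ⟨q, rfl⟩ := hs
  exact ⟨κ * q, by push_cast; rfl⟩

/-- the cubic -/
theorem int_cub (hi : ∀ U V W, ∃ z : ℤ, T U V W = z) (A D : Cart X) {s : ℝ} (hs : ¬ Irrational s)
    (h0 : tp3 T A D s = 0) : ∃ z : ℤ, T A A A * s = z := by
  obtain ⟨κ, hκ⟩ := hi A A A
  obtain ⟨a, ha⟩ := hi A A D
  obtain ⟨b, hb⟩ := hi A D D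
  obtain ⟨e, he⟩ := hi D D D
  unfold tp3 at h0
  rw [hκ, ha, hb, he] at h0
  rw [hκ]
  refine rat_int3 (not_irr_mul hs) (a := 3 * a) (b := 3 * κ * b) (e := κ ^ 2 * e) ?_
  have e1 : ((κ : ℝ) * s) ^ 3 + ((3 * a : ℤ) : ℝ) * (κ * s) ^ 2 + ((3 * κ * b : ℤ) : ℝ) * (κ * s) + ((κ ^ 2 * e : ℤ) : ℝ) =
      κ ^ 2 * (e + 3 * s * b + 3 * s ^ 2 * a + s ^ 3 * κ) := by
    push_cast
    ring
  rw [e1, h0, mul_zero]

/-- the quadric of a surface -/
theorem int_quad (hi : ∀ U V W, ∃ z : ℤ, T U V W = z) (A D S : Cart X) {s : ℝ} (hs : ¬ Irrational s)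
    (h0 : tpp T A D s S = 0) : ∃ z : ℤ, T A A S * s = z := by
  obtain ⟨κ, hκ⟩ := hi A A S
  obtain ⟨a, ha⟩ := hi A D S
  obtain ⟨b, hb⟩ := hi D D S
  unfold tpp at h0
  rw [hκ, ha, hb] at h0
  rw [hκ]
  refine rat_int2 (not_irr_mul hs) (a := 2 * a) (b := κ * b) ?_
  have e1 : ((κ : ℝ) * s) ^ 2 + ((2 * a : ℤ) : ℝ) * (κ * s) + ((κ * b : ℤ) : ℝ) =
      κ * (b + 2 * s * a + s ^ 2 * κ) := by
    push_cast
    ring
  rw [e1, h0, mul_zero]

/-- the functionals of `Phi` are negative on the cone -/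
theorem phi_neg {V : Set (Fin r → ℝ)} {a : Fin r → ℝ} (hd : Dir V a L) {κ : ℝ} {φ : Fin r → ℝ}
    (hφ : φ ∈ Phi κ (thf V a)) : (∀ x ∈ closure V, φ ⬝ᵥ x ≤ 0) ∧ φ ⬝ᵥ a ≤ -1 := by
  refine ⟨fun x hx => (hφ.2 x).trans ?_, (hφ.2 a).trans ?_⟩
  · refine (hd.le_iff x 0).2 ?_
    rwa [zero_smul, add_zero]
  · have h1 := hd.shift 0 1
    rw [zero_add, one_smul, hd.sub.zero] at h1
    linarith

/-- an open piece of the boundary -/
theorem piece {V : Set (Fin r → ℝ)} {a : Fin r → ℝ} (hd : Dir V a L) {κ : ℝ} (hκ : 0 < κ) {n : ℕ}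
    (F : (Fin r → ℝ) → ℝ) (hF : ∀ (t : ℝ) (v : Fin r → ℝ), F (t • v) = t ^ n * F v)
    (hint : ∀ d : Fin r → ℤ, F (rv d + thf V a (rv d) • a) = 0 → ∃ z : ℤ, κ * thf V a (rv d) = z)
    {O : Set (Fin r → ℝ)} (hO : IsOpen O) (h0 : ∀ p ∈ O, p ∈ frontier (closure V) → F p = 0)
    {p : Fin r → ℝ} (hp : p ∈ O) (hpf : p ∈ frontier (closure V)) : ∃ φ ∈ Phi κ (thf V a), φ ⬝ᵥ p = 0 := by
  obtain ⟨Ω, hΩ⟩ : ∃ Ω : Set (Fin r → ℝ), Ω = {v | ∃ t : ℝ, 0 < t ∧ t • (v + thf V a v • a) ∈ O} := ⟨_, rfl⟩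
  have hcont : Continuous fun v : Fin r → ℝ => v + thf V a v • a :=
    continuous_id.add ((sub_cont hd.sub).smul continuous_const)
  have h1 : IsOpen Ω := by
    have h2 : Ω = ⋃ t : {t : ℝ // 0 < t}, (fun v : Fin r → ℝ => (t : ℝ) • (v + thf V a v • a)) ⁻¹' O := by
      rw [hΩ]
      ext v
      simp only [Set.mem_ofPred_eq, Set.mem_iUnion, Set.mem_preimage, Subtype.exists, exists_prop]
    rw [h2]
    refine isOpen_iUnion fun t => hO.preimage ?_
    have h3 : Continuous fun v : Fin r → ℝ => (t : ℝ) • (v + thf V a v • a) := hcont.const_smul (t : ℝ)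
    exact h3
  have h2 : ∀ t : ℝ, 0 < t → ∀ x ∈ Ω, t • x ∈ Ω := by
    rw [hΩ]
    rintro t ht x ⟨u, hu, hx⟩
    refine ⟨u / t, by positivity, ?_⟩
    rw [hd.sub.smul t ht.le, mul_smul, ← smul_add, smul_smul, div_mul_cancel₀ _ ht.ne']
    exact hx
  have h3 := cover hd.sub hκ h1 h2 (fun D hD => by
    refine hint D ?_
    rw [hΩ] at hD
    obtain ⟨t, ht, hx⟩ := hD
    have h4 : F (t • (rv D + thf V a (rv D) • a)) = 0 := by
      refine h0 _ hx ?_
      rw [hd.fr, hd.sub.smul t ht.le, hd.shift, sub_self, mul_zero]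
    rw [hF] at h4
    exact (mul_eq_zero.1 h4).resolve_left (by positivity))
  have h4 : thf V a p = 0 := (hd.fr p).1 hpf
  obtain ⟨φ, h5, h6⟩ := h3 p (by
    rw [hΩ]
    refine ⟨1, one_pos, ?_⟩
    rw [h4, zero_smul, add_zero, one_smul]
    exact hp)
  exact ⟨φ, h5, h6.trans h4⟩

end Pool.Agent.H20.TD
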